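import Pool.Agent.Helper3.EL.Close

/-!
# Project EL, module EL-L: large deviations for one row order (with the inputs EL-I and EL-K as
hypotheses)
-/

set_option autoImplicit false

namespace Pool.Agent.Helper3.EL

open Finset Pool.Agent.Lead.TB Pool.Agent.Lead.TB.Halves Pool.Agent.Helper84.TL

theorem pos_lt_of_lt {n : ℕ} (ω : Equiv.Perm (Fin n)) {s s' : Fin n} (r : Fin n) (h : s' < s) :
    pos ω s' r < pos ω s r := by
  unfold pos
  have h1 : s'.val < s.val := h
  have hn : 0 < n := Fin.pos s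
  have : s'.val * n < s.val * n := Nat.mul_lt_mul_of_pos_right h1 hn
  omega

theorem avl_congr {n : ℕ} (ω : Equiv.Perm (Fin n)) {L L' : Fin n → Equiv.Perm (Fin n)}
    {s r : Fin n} (h : agr ω (pos ω s r) L L') : avl ω L s r = avl ω L' s r := by
  have h1 : ∀ s', s' < s → L s' r = L' s' r := fun s' hs' => h s' r (pos_lt_of_lt ω r hs')
  have h2 : ∀ r', ω r' < ω r → L s r' = L' s r' := by
    intro r' hr'
    apply h s r'
    unfold pos
    have : (ω r').val < (ω r).val := hr'
    omega
  unfold avl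
  apply Finset.filter_congr
  intro c _
  constructor
  · rintro ⟨a, b⟩
    exact ⟨fun s' hs' => by rw [← h1 s' hs']; exact a s' hs',
      fun r' hr' => by rw [← h2 r' hr']; exact b r' hr'⟩
  · rintro ⟨a, b⟩
    exact ⟨fun s' hs' => by rw [h1 s' hs']; exact a s' hs',
      fun r' hr' => by rw [h2 r' hr']; exact b r' hr'⟩

theorem mem_avl {n : ℕ} (ω : Equiv.Perm (Fin n)) {L : Fin n → Equiv.Perm (Fin n)}
    (hL : L ∈ ls n) (s r : Fin n) : L s r ∈ avl ω L s r := by
  have hd : ∀ i j, i ≠ j → ∀ r, L i r ≠ L j r := by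
    have h := hL
    simp only [ls, fac, Finset.mem_filter] at h
    exact h.2.2
  unfold avl
  rw [Finset.mem_filter]
  refine ⟨Finset.mem_univ _, fun s' hs' => hd s' s (ne_of_lt hs') r, fun r' hr' h => ?_⟩
  have : r' = r := (L s).injective h
  rw [this] at hr'
  exact lt_irrefl _ hr'

theorem agr_symm {n : ℕ} {ω : Equiv.Perm (Fin n)} {t : ℕ} {L L' : Fin n → Equiv.Perm (Fin n)}
    (h : agr ω t L L') : agr ω t L' L := fun s r hsr => (h s r hsr).symm

/-- `exp x ≤ 1 + 2 x` on `[0, 1]`. -/
theorem exp_le_one_add_two_mul {x : ℝ} (h0 : 0 ≤ x) (h1 : x ≤ 1) : Real.exp x ≤ 1 + 2 * x := by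
  have hc := convexOn_exp.2 (Set.mem_univ (0 : ℝ)) (Set.mem_univ (1 : ℝ))
    (sub_nonneg.mpr h1) h0 (by ring)
  simp only [smul_eq_mul, mul_zero, mul_one, zero_add, Real.exp_zero] at hc
  have he : Real.exp 1 ≤ 3 := le_of_lt (lt_trans Real.exp_one_lt_d9 (by norm_num))
  nlinarith [mul_le_mul_of_nonneg_left he h0]

/-- The step inequality. -/
theorem step_le {α : Type} (R : Finset α) (X : α → ℝ) (N : ℕ) (hR : R.card ≤ N) (hN : 1 ≤ N)
    (h0 : ∀ L ∈ R, 0 ≤ X L) (h1 : ∑ L ∈ R, X L ≤ 1) :
    ∑ L ∈ R, Real.exp (X L - (Real.log N + 2 / (N : ℝ))) ≤ 1 := by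
  have hN' : (0 : ℝ) < N := by exact_mod_cast hN
  have hle : ∀ L ∈ R, X L ≤ 1 := fun L hL => le_trans (Finset.single_le_sum h0 hL) h1
  have hs : ∑ L ∈ R, Real.exp (X L) ≤ N + 2 := by
    calc ∑ L ∈ R, Real.exp (X L) ≤ ∑ L ∈ R, (1 + 2 * X L) :=
          Finset.sum_le_sum fun L hL => exp_le_one_add_two_mul (h0 L hL) (hle L hL)
      _ = R.card + 2 * ∑ L ∈ R, X L := by
          rw [Finset.sum_add_distrib, Finset.mul_sum]; simp
      _ ≤ N + 2 := by
          have : (R.card : ℝ) ≤ N := by exact_mod_cast hR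
          linarith
  have he : (N : ℝ) + 2 ≤ N * Real.exp (2 / (N : ℝ)) := by
    have h2 := Real.add_one_le_exp (2 / (N : ℝ))
    have h3 : (N : ℝ) * (2 / (N : ℝ) + 1) ≤ N * Real.exp (2 / (N : ℝ)) :=
      mul_le_mul_of_nonneg_left h2 hN'.le
    have h4 : (N : ℝ) * (2 / (N : ℝ) + 1) = N + 2 := by
      field_simp
      ring
    linarith
  have hpos : 0 < (N : ℝ) * Real.exp (2 / (N : ℝ)) := mul_pos hN' (Real.exp_pos _)
  calc ∑ L ∈ R, Real.exp (X L - (Real.log N + 2 / (N : ℝ)))
      = ∑ L ∈ R, Real.exp (X L) / (N * Real.exp (2 / (N : ℝ))) := by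
        apply Finset.sum_congr rfl
        intro L _
        rw [Real.exp_sub, Real.exp_add, Real.exp_log hN']
    _ = (∑ L ∈ R, Real.exp (X L)) / (N * Real.exp (2 / (N : ℝ))) := by
        rw [Finset.sum_div]
    _ ≤ 1 := by
        rw [div_le_one hpos]
        exact le_trans hs he

open Classical in
theorem ld_fixed_of {n m : ℕ} {ι : Type} [Fintype ι] [DecidableEq ι]
    {Ω : Type} [Fintype Ω] [Nonempty Ω] (lam : Ω → ι ↪ Fin n)
    (e e' : Ω → Fin n → (ι ≃ Fin m × Bool)) {κ : ℝ} (hκ : 0 < κ)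
    (hκ' : ∀ s, ((univ.filter fun w => ∃ x, lam w x = s).card : ℝ) ≤ κ * Fintype.card Ω)
    (ω : Equiv.Perm (Fin n))
    (hseq : ∀ q : Fin n → Fin n → (Fin n → Equiv.Perm (Fin n)) → ℝ,
      (∀ s r, ∀ L ∈ ls n, 0 ≤ q s r L) →
      (∀ s r, ∀ L ∈ ls n, ∀ L' ∈ ls n, agr ω (pos ω s r + 1) L L' → q s r L = q s r L') →
      (∀ s r, ∀ R ⊆ ls n, (∀ L ∈ R, ∀ L' ∈ R, agr ω (pos ω s r) L L') →
        (∀ L ∈ R, ∀ L' ∈ R, L s r = L' s r → L = L') → ∑ L ∈ R, q s r L ≤ 1) →
      ∑ L ∈ ls n, ∏ s, ∏ r, q s r L ≤ 1)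
    (hclose : ∀ (w : Ω) (L L' : Fin n → Equiv.Perm (Fin n)) (x : Fin n × ι),
      agr ω (pos ω (lam w x.2) x.1) L L' →
      lst ω (lam w) (mR (e w)) (mC (e' w) fun i => L (lam w i)) x →
      lst ω (lam w) (mR (e w)) (mC (e' w) fun i => L' (lam w i)) x →
      L (lam w x.2) x.1 = L' (lam w x.2) x.1)
    (hcongr : ∀ (w : Ω) (L L' : Fin n → Equiv.Perm (Fin n)) (x : Fin n × ι),
      agr ω (pos ω (lam w x.2) x.1 + 1) L L' →
      lst ω (lam w) (mR (e w)) (mC (e' w) fun i => L (lam w i)) x →
      lst ω (lam w) (mR (e w)) (mC (e' w) fun i => L' (lam w i)) x)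
    (hncl : ∀ (w : Ω) (L : Fin n → Equiv.Perm (Fin n)),
      ncl (mR (e w)) (mC (e' w) fun x => L (lam w x)) =
        (univ.filter fun x : Fin n × ι =>
          lst ω (lam w) (mR (e w)) (mC (e' w) fun i => L (lam w i)) x).card) :
    ∑ L ∈ ls n, Real.exp ((∑ w, (ncl (mR (e w)) (mC (e' w) fun x => L (lam w x)) : ℝ)) /
        (κ * Fintype.card Ω) -
      ∑ s, ∑ r, (Real.log (avl ω L s r).card + 2 / ((avl ω L s r).card : ℝ))) ≤ 1 := by
  have hΩ : (0 : ℝ) < Fintype.card Ω := by exact_mod_cast Fintype.card_pos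
  have hK : 0 < κ * Fintype.card Ω := mul_pos hκ hΩ
  -- the last cells
  let P : Ω → (Fin n → Equiv.Perm (Fin n)) → Fin n × ι → Prop := fun w L x =>
    lst ω (lam w) (mR (e w)) (mC (e' w) fun i => L (lam w i)) x
  let cn : Fin n → Fin n → (Fin n → Equiv.Perm (Fin n)) → Ω → ℕ := fun s r L w =>
    (univ.filter fun x : Fin n × ι => P w L x ∧ (lam w x.2, x.1) = (s, r)).card
  let X : Fin n → Fin n → (Fin n → Equiv.Perm (Fin n)) → ℝ := fun s r L =>
    (∑ w, (cn s r L w : ℝ)) / (κ * Fintype.card Ω)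
  have hX0 : ∀ s r L, 0 ≤ X s r L := by
    intro s r L
    apply div_nonneg _ hK.le
    exact Finset.sum_nonneg fun w _ => Nat.cast_nonneg _
  have hcn : ∀ w L, ncl (mR (e w)) (mC (e' w) fun x => L (lam w x)) =
      ∑ s, ∑ r, cn s r L w := by
    intro w L
    rw [hncl w L]
    have := Finset.card_eq_sum_card_fiberwise (s := univ.filter fun x : Fin n × ι => P w L x)
      (t := (univ : Finset (Fin n × Fin n))) (f := fun x => (lam w x.2, x.1))
      (fun x _ => Finset.mem_coe.mpr (Finset.mem_univ _))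
    rw [this, ← Finset.univ_product_univ, Finset.sum_product]
    apply Finset.sum_congr rfl
    intro s _
    apply Finset.sum_congr rfl
    intro r _
    rw [Finset.filter_filter]
  have hsum : ∀ L, (∑ w, (ncl (mR (e w)) (mC (e' w) fun x => L (lam w x)) : ℝ)) /
      (κ * Fintype.card Ω) = ∑ s, ∑ r, X s r L := by
    intro L
    simp only [X]
    rw [Finset.sum_congr rfl fun s _ => (Finset.sum_div _ _ _).symm, ← Finset.sum_div]
    congr 1
    calc ∑ w, (ncl (mR (e w)) (mC (e' w) fun x => L (lam w x)) : ℝ)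
        = ∑ w, ∑ s, ∑ r, (cn s r L w : ℝ) := by
          apply Finset.sum_congr rfl
          intro w _
          rw [hcn w L]
          push_cast
          rfl
      _ = ∑ s, ∑ w, ∑ r, (cn s r L w : ℝ) := Finset.sum_comm
      _ = ∑ s, ∑ r, ∑ w, (cn s r L w : ℝ) := by
          apply Finset.sum_congr rfl
          intro s _
          exact Finset.sum_comm
  let q : Fin n → Fin n → (Fin n → Equiv.Perm (Fin n)) → ℝ := fun s r L =>
    Real.exp (X s r L - (Real.log (avl ω L s r).card + 2 / ((avl ω L s r).card : ℝ)))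
  have hmain := hseq q (fun s r L _ => (Real.exp_pos _).le) ?_ ?_
  · refine le_trans (le_of_eq ?_) hmain
    apply Finset.sum_congr rfl
    intro L _
    rw [hsum L, ← Finset.sum_sub_distrib, Real.exp_sum]
    apply Finset.prod_congr rfl
    intro s _
    rw [← Finset.sum_sub_distrib, Real.exp_sum]
  · intro s r L _ L' _ hag
    have h1 : avl ω L s r = avl ω L' s r := avl_congr ω fun s' r' h =>
      hag s' r' (lt_trans h (Nat.lt_succ_self _))
    have h2 : X s r L = X s r L' := by
      simp only [X]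
      congr 1
      apply Finset.sum_congr rfl
      intro w _
      congr 1
      simp only [cn]
      congr 1
      apply Finset.filter_congr
      intro x _
      constructor
      · rintro ⟨a, b⟩
        have hb : lam w x.2 = s ∧ x.1 = r := by simpa using b
        refine ⟨hcongr w L L' x ?_ a, b⟩
        rw [hb.1, hb.2]
        exact hag
      · rintro ⟨a, b⟩
        have hb : lam w x.2 = s ∧ x.1 = r := by simpa using b
        refine ⟨hcongr w L' L x ?_ a, b⟩
        rw [hb.1, hb.2]
        exact agr_symm hag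
    simp only [q, h1, h2]
  · intro s r R hR hag hinj
    rcases R.eq_empty_or_nonempty with rfl | ⟨L₀, hL₀⟩
    · simp
    have havl : ∀ L ∈ R, avl ω L s r = avl ω L₀ s r := fun L hL =>
      avl_congr ω (hag L hL L₀ hL₀)
    have hcard : R.card ≤ (avl ω L₀ s r).card := by
      apply Finset.card_le_card_of_injOn (fun L => L s r)
      · intro L hL
        have h1 := mem_avl ω (hR hL) s r
        rw [havl L hL] at h1
        exact h1
      · intro L hL L' hL' h
        exact hinj L hL L' hL' h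
    have hN : 1 ≤ (avl ω L₀ s r).card := Finset.card_pos.mpr ⟨_, mem_avl ω (hR hL₀) s r⟩
    have hsumX : ∑ L ∈ R, X s r L ≤ 1 := by
      simp only [X]
      rw [← Finset.sum_div, div_le_one hK, Finset.sum_comm]
      refine le_trans ?_ (hκ' s)
      rw [Finset.card_filter]
      push_cast
      apply Finset.sum_le_sum
      intro w _
      split_ifs with hw
      · obtain ⟨i, hi⟩ := hw
        -- at most one L in R, with one cell
        have hle : ∀ L ∈ R, cn s r L w = if P w L (r, i) then 1 else 0 := by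
          intro L _
          simp only [cn]
          split_ifs with hp
          · have : (univ.filter fun x : Fin n × ι => P w L x ∧ (lam w x.2, x.1) = (s, r)) =
                {(r, i)} := by
              ext x
              simp only [Finset.mem_filter, Finset.mem_univ, true_and, Finset.mem_singleton]
              constructor
              · rintro ⟨_, b⟩
                have hb : lam w x.2 = s ∧ x.1 = r := by simpa using b
                have : x.2 = i := (lam w).injective (hb.1.trans hi.symm)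
                exact Prod.ext hb.2 this
              · rintro rfl
                exact ⟨hp, by simp [hi]⟩
            rw [this, Finset.card_singleton]
          · rw [Finset.card_eq_zero, Finset.filter_eq_empty_iff]
            rintro x _ ⟨a, b⟩
            have hb : lam w x.2 = s ∧ x.1 = r := by simpa using b
            have h2 : x.2 = i := (lam w).injective (hb.1.trans hi.symm)
            have h3 : x = (r, i) := Prod.ext hb.2 h2
            rw [h3] at a
            exact hp a
        have hsum1 : ∑ L ∈ R, cn s r L w = (R.filter fun L => P w L (r, i)).card := by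
          rw [Finset.card_filter]
          exact Finset.sum_congr rfl hle
        have hcard1 : (R.filter fun L => P w L (r, i)).card ≤ 1 := by
          rw [Finset.card_le_one]
          intro L hL L' hL'
          rw [Finset.mem_filter] at hL hL'
          apply hinj L hL.1 L' hL'.1
          have := hclose w L L' (r, i) (by
            simp only [hi]
            exact hag L hL.1 L' hL'.1) hL.2 hL'.2
          simpa [hi] using this
        have : ∑ L ∈ R, cn s r L w ≤ 1 := by rw [hsum1]; exact hcard1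
        exact_mod_cast this
      · apply le_of_eq
        apply Finset.sum_eq_zero
        intro L _
        have : cn s r L w = 0 := by
          simp only [cn]
          rw [Finset.card_eq_zero, Finset.filter_eq_empty_iff]
          rintro x _ ⟨_, b⟩
          have hb : lam w x.2 = s ∧ x.1 = r := by simpa using b
          exact hw ⟨x.2, hb.1⟩
        rw [this]
        simp
    have := step_le R (X s r) (avl ω L₀ s r).card hcard hN (fun L _ => hX0 s r L) hsumX
    refine le_trans (le_of_eq ?_) this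
    apply Finset.sum_congr rfl
    intro L hL
    simp only [q, havl L hL]

/-- EL-L with the input EL-I (`seq_sum`) as a hypothesis. -/
theorem ld_fixed_seq {n m : ℕ} {ι : Type} [Fintype ι] [DecidableEq ι] (side : ι → Bool)
    {Ω : Type} [Fintype Ω] [Nonempty Ω] (lam : Ω → ι ↪ Fin n)
    (e e' : Ω → Fin n → (ι ≃ Fin m × Bool)) (he : ∀ w r x, side (par (e w r) x) ≠ side x)
    (he' : ∀ w r x, side (par (e' w r) x) ≠ side x) {κ : ℝ} (hκ : 0 < κ)
    (hκ' : ∀ s, ((univ.filter fun w => ∃ x, lam w x = s).card : ℝ) ≤ κ * Fintype.card Ω)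
    (ω : Equiv.Perm (Fin n))
    (seq_sum : ∀ (S : Finset (Fin n → Equiv.Perm (Fin n)))
      (q : Fin n → Fin n → (Fin n → Equiv.Perm (Fin n)) → ℝ),
      (∀ s r, ∀ L ∈ S, 0 ≤ q s r L) →
      (∀ s r, ∀ L ∈ S, ∀ L' ∈ S, agr ω (pos ω s r + 1) L L' → q s r L = q s r L') →
      (∀ s r, ∀ R ⊆ S, (∀ L ∈ R, ∀ L' ∈ R, agr ω (pos ω s r) L L') →
        (∀ L ∈ R, ∀ L' ∈ R, L s r = L' s r → L = L') → ∑ L ∈ R, q s r L ≤ 1) →
      ∑ L ∈ S, ∏ s, ∏ r, q s r L ≤ 1) :
    ∑ L ∈ ls n, Real.exp ((∑ w, (ncl (mR (e w)) (mC (e' w) fun x => L (lam w x)) : ℝ)) /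
        (κ * Fintype.card Ω) -
      ∑ s, ∑ r, (Real.log (avl ω L s r).card + 2 / ((avl ω L s r).card : ℝ))) ≤ 1 := by
  classical
  refine ld_fixed_of lam e e' hκ ?_ ω (seq_sum (ls n)) ?_ ?_ ?_
  · intro s
    refine le_trans (le_of_eq ?_) (hκ' s)
    congr 2
  · intro w L L' x hag h h'
    exact close_unique side (e w) (e' w) (he w) (he' w) (lam w) (lam w).injective ω L L' x hag h h'
  · intro w L L' x hag h
    exact lst_congr (e w) (e' w) (lam w) (lam w).injective ω L L' x hag h
  · intro w L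
    rw [ncl_eq _ _ (lam w) (lam w).injective ω]

end Pool.Agent.Helper3.EL
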