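import Pool.Agent.Helper3.EL.Seq
import Pool.Agent.Helper38.EL.LdFixOf

/-!
# Project EL, module EL-L: large deviations for one row order
-/

set_option autoImplicit false

namespace Pool.Agent.Helper3.EL

open Finset Pool.Agent.Lead.TB Pool.Agent.Lead.TB.Halves Pool.Agent.Helper84.TL

theorem ld_fixed {n m : ℕ} {ι : Type} [Fintype ι] [DecidableEq ι] (side : ι → Bool)
    {Ω : Type} [Fintype Ω] [Nonempty Ω] (lam : Ω → ι ↪ Fin n)
    (e e' : Ω → Fin n → (ι ≃ Fin m × Bool)) (he : ∀ w r x, side (par (e w r) x) ≠ side x)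
    (he' : ∀ w r x, side (par (e' w r) x) ≠ side x) {κ : ℝ} (hκ : 0 < κ)
    (hκ' : ∀ s, ((univ.filter fun w => ∃ x, lam w x = s).card : ℝ) ≤ κ * Fintype.card Ω)
    (ω : Equiv.Perm (Fin n)) :
    ∑ L ∈ ls n, Real.exp ((∑ w, (ncl (mR (e w)) (mC (e' w) fun x => L (lam w x)) : ℝ)) /
        (κ * Fintype.card Ω) -
      ∑ s, ∑ r, (Real.log (avl ω L s r).card + 2 / ((avl ω L s r).card : ℝ))) ≤ 1 :=
  ld_fixed_seq side lam e e' he he' hκ hκ' ω fun S q h0 hq h1 => seq_sum ω S q h0 hq h1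

end Pool.Agent.Helper3.EL
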